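import Mathlib
import Pool.Agent.Helper24.HR2.Family

/-!
MP_16b0ee, project HR2: the statement of the hand-in for holomorphic families, from one bound
`mInt a0 R h ≤ C` for the class Sigma (light imports).
-/

set_option autoImplicit false

open MeasureTheory Set Metric Filter Topology
open scoped ENNReal NNReal Real ComplexConjugate

namespace Pool.Agent.Helper94.HR2

open Pool.Agent.Helper22.Half
open Pool.Agent.Helper24.HR2

/-- The statement for holomorphic families with the closed range `0 < a ≤ a0 / k ^ 2`. -/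
theorem final_family {a0 : ℝ} (ha0 : 0 < a0)
    (hS : ∃ C : ℝ, ∀ R : ℝ, 1 < R → ∀ ψ h : ℂ → ℂ, SigmaLog ψ h → mInt a0 R h ≤ C) :
    ∀ k a : ℝ, 0 < k → k < 1 → 0 < a → a * k ^ 2 ≤ a0 → ∃ C : ℝ, ∀ R : ℝ, 1 < R →
      ∀ ψ h : ℂ → ℂ → ℂ,
      (∀ l : ℂ, ‖l‖ < 1 →
        DifferentiableOn ℂ (ψ l) {z : ℂ | 1 < ‖z‖} ∧
        Set.InjOn (ψ l) {z : ℂ | 1 < ‖z‖} ∧
        (∃ b : ℂ, Filter.Tendsto (fun z => ψ l z - z) (Bornology.cobounded ℂ) (nhds b)) ∧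
        DifferentiableOn ℂ (h l) {z : ℂ | 1 < ‖z‖} ∧
        (∀ z : ℂ, 1 < ‖z‖ → Complex.exp (h l z) = deriv (ψ l) z) ∧
        Filter.Tendsto (h l) (Bornology.cobounded ℂ) (nhds 0)) →
      (∀ z : ℂ, 1 < ‖z‖ → DifferentiableOn ℂ (fun l => ψ l z) {l : ℂ | ‖l‖ < 1}) →
      (∀ z : ℂ, 1 < ‖z‖ → ψ 0 z = z) →
      ∀ l : ℂ, ‖l‖ ≤ k →
      (1 / (2 * Real.pi)) * ∫ θ in (0:ℝ)..(2 * Real.pi),
        Real.exp (a * ‖h l ((R : ℂ) * Complex.exp ((θ : ℂ) * Complex.I))‖ ^ 2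
          / Real.log (R ^ 2 / (R ^ 2 - 1))) ≤ C := by
  intro k a hk0 hk1 ha hak
  obtain ⟨C, _, hm⟩ := mInt_family_closed ha0 hS hk0 hk1 ha hak
  refine ⟨C, fun R hR ψ h hmem hhol hbase l hl => ?_⟩
  have hball : Metric.ball (0:ℂ) 1 = {l : ℂ | ‖l‖ < 1} := by
    ext l
    simp
  refine hm R hR ψ h ⟨?_, ?_, hbase⟩ l hl
  · intro l' hl'
    rw [hball] at hl'
    obtain ⟨h1, h2, h3, h4, h5, h6⟩ := hmem l' hl'
    exact ⟨h1, h2, h3, h4, h5, h6⟩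
  · intro z hz
    rw [hball]
    exact hhol z hz

end Pool.Agent.Helper94.HR2
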